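import Pool.Agent.W120.WM.Defs

set_option autoImplicit false

open MeasureTheory Filter Topology Set

namespace Pool.Agent.W280.WM

open Pool.Agent.W120.WM

theorem zeta_ne (s : ℂ) (h1 : -1 / 2 ≤ s.re) (h2 : s.re ≤ 0) : riemannZeta s ≠ 0 := by
  by_cases hs : s = 0
  · rw [hs, riemannZeta_zero]; norm_num
  · have hre : (1 - s).re = 1 - s.re := by simp
    have h3 : ∀ n : ℕ, (1 - s) ≠ -n := by
      intro n hn
      have h4 : (1 - s).re = (-(n : ℂ)).re := congrArg Complex.re hn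
      rw [hre] at h4
      simp at h4
      have : (0 : ℝ) ≤ n := Nat.cast_nonneg n
      linarith
    have h4 : (1 - s) ≠ 1 := by
      intro h
      apply hs
      have : s = 1 - (1 - s) := by ring
      rw [this, h]; ring
    have h5 := riemannZeta_one_sub h3 h4
    have e : (1 : ℂ) - (1 - s) = s := by ring
    rw [e] at h5
    rw [h5]
    refine mul_ne_zero (mul_ne_zero (mul_ne_zero (mul_ne_zero two_ne_zero ?_) ?_) ?_) ?_
    · rw [Complex.cpow_ne_zero_iff]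
      left
      have : (Real.pi : ℂ) ≠ 0 := by exact_mod_cast Real.pi_ne_zero
      exact mul_ne_zero two_ne_zero this
    · apply Complex.Gamma_ne_zero_of_re_pos
      rw [hre]; linarith
    · rw [Complex.cos_ne_zero_iff]
      intro k hk
      have hpi : (Real.pi : ℂ) ≠ 0 := by exact_mod_cast Real.pi_ne_zero
      have h6 : (1 - s) = 2 * (k : ℂ) + 1 := by
        have h7 : (Real.pi : ℂ) * (1 - s) = Real.pi * (2 * (k : ℂ) + 1) := by
          have := congrArg (fun z => 2 * z) hk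
          calc (Real.pi : ℂ) * (1 - s) = 2 * (Real.pi * (1 - s) / 2) := by ring
            _ = 2 * ((2 * (k : ℂ) + 1) * Real.pi / 2) := this
            _ = Real.pi * (2 * (k : ℂ) + 1) := by ring
        exact mul_left_cancel₀ hpi h7
      have h8 : (1 - s).re = 2 * (k : ℝ) + 1 := by
        rw [h6]; simp
      rw [hre] at h8
      have h9 : (0 : ℝ) ≤ 2 * (k : ℝ) := by linarith
      have h10 : 2 * (k : ℝ) ≤ 1 / 2 := by linarith
      have h11 : (0 : ℤ) ≤ 2 * k := by exact_mod_cast h9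
      have h12 : (2 * k : ℤ) < 1 := by
        have : (2 * (k : ℝ)) < 1 := by linarith
        exact_mod_cast this
      have h13 : k = 0 := by omega
      rw [h13] at h6
      apply h4
      rw [h6]; simp
    · apply riemannZeta_ne_zero_of_one_le_re
      rw [hre]; linarith

/-- the entire function -/
noncomputable def Fz (s : ℂ) : ℂ := s * riemannZeta₁ s

/-- the numerator -/
noncomputable def gz (h v : ℝ) (s : ℂ) : ℂ := (s - 1) * EE h v s

theorem z1_eq (s : ℂ) (hs : s ≠ 1) : riemannZeta₁ s = (s - 1) * riemannZeta s := by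
  have h : s - 1 ≠ 0 := sub_ne_zero.mpr hs
  rw [riemannZeta_eq_inv_sub_mul hs, ← mul_assoc, mul_inv_cancel₀ h, one_mul]

theorem Fz_diff : Differentiable ℂ Fz := by
  unfold Fz
  exact differentiable_id.mul differentiable_riemannZeta₁

theorem gz_diff (h v : ℝ) : Differentiable ℂ (gz h v) := by
  unfold gz EE
  fun_prop

theorem quot (h v : ℝ) (s : ℂ) (hs : s ≠ 1) : gz h v s / Fz s = GG h v s := by
  have h1 : s - 1 ≠ 0 := sub_ne_zero.mpr hs
  unfold gz Fz GG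
  rw [z1_eq s hs]
  have e : s * ((s - 1) * riemannZeta s) = (s - 1) * (s * riemannZeta s) := by ring
  rw [e, mul_div_mul_left _ _ h1]

theorem Fz_zero (s : ℂ) (h1 : -1 / 2 ≤ s.re) : Fz s = 0 ↔ s = 0 ∨ s ∈ NT := by
  unfold Fz
  rw [mul_eq_zero]
  constructor
  · rintro (h | h)
    · exact Or.inl h
    · by_cases hs : s = 1
      · rw [hs, riemannZeta₁_one] at h
        exact absurd h one_ne_zero
      · rw [z1_eq s hs, mul_eq_zero] at h
        rcases h with h | h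
        · exact absurd (sub_eq_zero.mp h) hs
        · right
          refine ⟨h, ?_, ?_⟩
          · by_contra hlt
            exact zeta_ne s h1 (not_lt.mp hlt) h
          · by_contra hlt
            exact riemannZeta_ne_zero_of_one_le_re (not_lt.mp hlt) h
  · rintro (h | h)
    · exact Or.inl h
    · right
      have hs : s ≠ 1 := by
        intro hs
        have := h.2.2
        rw [hs] at this
        simp at this
      rw [z1_eq s hs, h.1, mul_zero]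

theorem deriv_Fz_zero : deriv Fz 0 = 1 / 2 := by
  have h1 : HasDerivAt Fz (1 * riemannZeta₁ 0 + 0 * deriv riemannZeta₁ 0) 0 :=
    (hasDerivAt_id (0 : ℂ)).mul (differentiable_riemannZeta₁ 0).hasDerivAt
  rw [h1.deriv, z1_eq 0 zero_ne_one, riemannZeta_zero]
  norm_num

theorem deriv_Fz (ρ : ℂ) (hρ : ρ ∈ NT) : deriv Fz ρ = (ρ - 1) * (ρ * deriv riemannZeta ρ) := by
  have hs : ρ ≠ 1 := by
    intro hs
    have := hρ.2.2
    rw [hs] at this
    simp at this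
  have h1 : HasDerivAt Fz (1 * riemannZeta₁ ρ + ρ * deriv riemannZeta₁ ρ) ρ :=
    (hasDerivAt_id ρ).mul (differentiable_riemannZeta₁ ρ).hasDerivAt
  have h2 : HasDerivAt (fun s : ℂ => (s - 1) * riemannZeta s)
      (1 * riemannZeta ρ + (ρ - 1) * deriv riemannZeta ρ) ρ :=
    ((hasDerivAt_id ρ).sub_const 1).mul (differentiableAt_riemannZeta hs).hasDerivAt
  have h3 : riemannZeta₁ =ᶠ[𝓝 ρ] fun s : ℂ => (s - 1) * riemannZeta s := by
    filter_upwards [isOpen_ne.mem_nhds hs] with s hs'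
    exact z1_eq s hs'
  have h4 : deriv riemannZeta₁ ρ = (ρ - 1) * deriv riemannZeta ρ := by
    rw [h3.deriv_eq, h2.deriv, hρ.1]; ring
  rw [h1.deriv, h4, z1_eq ρ hs, hρ.1]
  ring

theorem fin_NT (U : ℝ) : {s : ℂ | s ∈ NT ∧ |s.im| ≤ U}.Finite := by
  have h1 : IsCompact (Icc (0 : ℝ) 1 ×ℂ Icc (-U) U) := isCompact_Icc.reProdIm isCompact_Icc
  refine h1.inter_riemannZetaZeros_finite.subset ?_
  rintro s ⟨hs, hU⟩
  refine ⟨?_, hs.1⟩
  rw [Complex.mem_reProdIm]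
  exact ⟨⟨hs.2.1.le, hs.2.2.le⟩, abs_le.mp hU⟩

theorem norm_EE (h v : ℝ) (σ t : ℝ) :
    ‖EE h v (⟨σ, t⟩ : ℂ)‖ = Real.exp (h ^ 2 / 2 * (σ ^ 2 - t ^ 2) + v * σ) := by
  unfold EE
  rw [Complex.norm_exp]
  congr 1
  have e : ((h : ℂ) ^ 2 / 2 * (⟨σ, t⟩ : ℂ) ^ 2 + v * (⟨σ, t⟩ : ℂ)).re = h ^ 2 / 2 * (σ ^ 2 - t ^ 2) + v * σ := by
    have e1 : (⟨σ, t⟩ : ℂ) = (σ : ℂ) + t * Complex.I := by
      apply Complex.ext <;> simp
    have e2 : ((h : ℂ) ^ 2 / 2 * (⟨σ, t⟩ : ℂ) ^ 2 + v * (⟨σ, t⟩ : ℂ)) =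
        ((h ^ 2 / 2 * (σ ^ 2 - t ^ 2) + v * σ : ℝ) : ℂ) + ((h ^ 2 * σ * t + v * t : ℝ) : ℂ) * Complex.I := by
      rw [e1]
      push_cast
      ring_nf
      rw [Complex.I_sq]
      ring
    rw [e2, Complex.add_re, Complex.ofReal_re, Complex.mul_I_re, Complex.ofReal_im, neg_zero, add_zero]
  rw [e]

theorem lim_bot (K C a : ℝ) (hC : 0 < C) (ha : 0 < a) :
    Tendsto (fun T : ℝ => K + C * Real.log T ^ 2 - a * T ^ 2) atTop atBot := by
  have h1 : ∀ᶠ T : ℝ in atTop, C * Real.log T ^ 2 ≤ T := by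
    have h2 := (Real.isLittleO_pow_log_id_atTop (n := 2)).bound (c := C⁻¹) (by positivity)
    filter_upwards [h2, eventually_ge_atTop (0 : ℝ)] with T hT hT0
    rw [Real.norm_eq_abs, Real.norm_eq_abs, abs_of_nonneg (by positivity), id_eq, abs_of_nonneg hT0] at hT
    calc C * Real.log T ^ 2 ≤ C * (C⁻¹ * T) := mul_le_mul_of_nonneg_left hT hC.le
      _ = T := by field_simp
  have h3 : Tendsto (fun T : ℝ => T * (1 - a * T)) atTop atBot := by
    apply Tendsto.atTop_mul_atBot₀ tendsto_id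
    have h4 : Tendsto (fun T : ℝ => a * T) atTop atTop := tendsto_id.const_mul_atTop ha
    have h5 : Tendsto (fun T : ℝ => -(a * T)) atTop atBot := tendsto_neg_atTop_atBot.comp h4
    have h6 := tendsto_atBot_add_const_left atTop (1 : ℝ) h5
    refine h6.congr (fun T => ?_)
    ring
  have h7 : Tendsto (fun T : ℝ => K + T * (1 - a * T)) atTop atBot :=
    tendsto_atBot_add_const_left atTop K h3
  refine tendsto_atBot_mono' atTop ?_ h7
  filter_upwards [h1] with T hT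
  have e : K + T * (1 - a * T) = K + T - a * T ^ 2 := by ring
  rw [e]
  linarith

theorem GG_bound (h v : ℝ) (x t U L : ℝ) (hx : x ∈ Icc (-1 / 2 : ℝ) (3 / 2)) (ht : |t| = U) (hU : 1 ≤ U)
    (hz : ‖(riemannZeta (⟨x, t⟩ : ℂ))⁻¹‖ ≤ Real.exp L) :
    ‖GG h v (⟨x, t⟩ : ℂ)‖ ≤ Real.exp (h ^ 2 / 2 * (9 / 4 - U ^ 2) + 3 / 2 * |v| + L) := by
  unfold GG
  rw [norm_div, norm_mul, norm_EE, div_eq_mul_inv, mul_inv, ← norm_inv (riemannZeta _)]
  have h1 : (1 : ℝ) ≤ ‖(⟨x, t⟩ : ℂ)‖ := by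
    have := Complex.abs_im_le_norm (⟨x, t⟩ : ℂ)
    have h2 : |(⟨x, t⟩ : ℂ).im| = U := ht
    linarith
  have h2 : ‖(⟨x, t⟩ : ℂ)‖⁻¹ ≤ 1 := inv_le_one_of_one_le₀ h1
  have h3 : t ^ 2 = U ^ 2 := by rw [← ht, sq_abs]
  have h4 : x ^ 2 ≤ 9 / 4 := by
    have := hx.1; have := hx.2
    nlinarith
  have h5 : v * x ≤ 3 / 2 * |v| := by
    have h6 : v * x ≤ |v * x| := le_abs_self _
    have h7 : |v * x| = |v| * |x| := abs_mul _ _
    have h8 : |x| ≤ 3 / 2 := by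
      rw [abs_le]; constructor
      · have := hx.1; linarith
      · exact hx.2
    have h9 := mul_le_mul_of_nonneg_left h8 (abs_nonneg v)
    linarith
  have h6 : Real.exp (h ^ 2 / 2 * (x ^ 2 - t ^ 2) + v * x) ≤
      Real.exp (h ^ 2 / 2 * (9 / 4 - U ^ 2) + 3 / 2 * |v|) := by
    apply Real.exp_le_exp.mpr
    rw [h3]
    have h7 : h ^ 2 / 2 * (x ^ 2 - U ^ 2) ≤ h ^ 2 / 2 * (9 / 4 - U ^ 2) := by
      apply mul_le_mul_of_nonneg_left _ (by positivity)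
      linarith
    linarith
  rw [Real.exp_add (h ^ 2 / 2 * (9 / 4 - U ^ 2) + 3 / 2 * |v|) L]
  have h7 : ‖(⟨x, t⟩ : ℂ)‖⁻¹ * ‖(riemannZeta (⟨x, t⟩ : ℂ))⁻¹‖ ≤ 1 * Real.exp L :=
    mul_le_mul h2 hz (norm_nonneg _) zero_le_one
  rw [one_mul] at h7
  exact mul_le_mul h6 h7 (by positivity) (by positivity)

theorem hor_bound (h v U L t : ℝ) (ht : |t| = U) (hU : 1 ≤ U)
    (hz : ∀ σ ∈ Icc (-1 / 2 : ℝ) (3 / 2), ‖(riemannZeta (⟨σ, t⟩ : ℂ))⁻¹‖ ≤ Real.exp L) :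
    ‖∫ x in (-1 / 2 : ℝ)..(3 / 2), GG h v (⟨x, t⟩ : ℂ)‖ ≤
      Real.exp (h ^ 2 / 2 * (9 / 4 - U ^ 2) + 3 / 2 * |v| + L) * 2 := by
  have h1 := intervalIntegral.norm_integral_le_of_norm_le_const (a := (-1 / 2 : ℝ)) (b := 3 / 2)
    (f := fun x => GG h v (⟨x, t⟩ : ℂ))
    (C := Real.exp (h ^ 2 / 2 * (9 / 4 - U ^ 2) + 3 / 2 * |v| + L)) (by
      intro x hx
      have hx' : x ∈ Icc (-1 / 2 : ℝ) (3 / 2) := by
        rw [uIoc_of_le (by norm_num)] at hx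
        exact ⟨hx.1.le, hx.2⟩
      exact GG_bound h v x t U L hx' ht hU (hz x hx'))
  have e : |(3 / 2 : ℝ) - (-1 / 2)| = 2 := by norm_num
  rw [e] at h1
  exact h1

theorem rect (hRES : T_RES) (hsimple : ∀ ρ ∈ NT, deriv riemannZeta ρ ≠ 0) (U : ℝ) (hU : 1 ≤ U)
    (hz : ∀ σ ∈ Icc (-1 / 2 : ℝ) (3 / 2), ∀ t : ℝ, |t| = U → riemannZeta (⟨σ, t⟩ : ℂ) ≠ 0)
    (Z : Finset ℂ) (hZ : ∀ ρ, ρ ∈ Z ↔ ρ ∈ NT ∧ |ρ.im| ≤ U) (h v : ℝ) :
    ∑ ρ ∈ Z, EE h v ρ / (ρ * deriv riemannZeta ρ) =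
      2 + (2 * Real.pi * Complex.I)⁻¹ *
        ((∫ x in (-1 / 2 : ℝ)..(3 / 2), GG h v (⟨x, -U⟩ : ℂ)) -
          ∫ x in (-1 / 2 : ℝ)..(3 / 2), GG h v (⟨x, U⟩ : ℂ)) +
      ((2 * Real.pi : ℝ) : ℂ)⁻¹ * ((∫ y in (-U)..U, GG h v (⟨3 / 2, y⟩ : ℂ)) -
          ∫ y in (-U)..U, GG h v (⟨-1 / 2, y⟩ : ℂ)) := by
  have h0Z : (0 : ℂ) ∉ Z := by
    intro h0
    have := ((hZ 0).mp h0).1.2.1
    simp at this
  have key := hRES Fz (gz h v) (insert 0 Z) (-1 / 2) (3 / 2) (-U) U (by norm_num) (by linarith)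
    Fz_diff (gz_diff h v) (by
      intro s hs
      rw [Complex.mem_reProdIm] at hs
      rw [Fz_zero s hs.1.1, Finset.mem_insert, hZ]
      have : |s.im| ≤ U := abs_le.mpr hs.2
      tauto) (by
      intro ρ hρ
      rw [Finset.mem_insert] at hρ
      rcases hρ with rfl | hρ
      · refine ⟨?_, ?_⟩
        · rw [Complex.mem_reProdIm]
          constructor
          · rw [Complex.zero_re]; constructor <;> norm_num
          · rw [Complex.zero_im]; constructor <;> linarith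
        · rw [deriv_Fz_zero]; norm_num
      · rw [hZ] at hρ
        have hne : |ρ.im| ≠ U := by
          intro he
          have h1 := hz ρ.re ⟨by linarith [hρ.1.2.1], by linarith [hρ.1.2.2]⟩ ρ.im he
          exact h1 hρ.1.1
        have hlt : |ρ.im| < U := lt_of_le_of_ne hρ.2 hne
        refine ⟨?_, ?_⟩
        · rw [Complex.mem_reProdIm]
          refine ⟨⟨by linarith [hρ.1.2.1], by linarith [hρ.1.2.2]⟩, abs_lt.mp hlt⟩
        · rw [deriv_Fz ρ hρ.1]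
          refine mul_ne_zero ?_ (mul_ne_zero ?_ (hsimple ρ hρ.1))
          · intro h1
            have h2 : ρ = 1 := sub_eq_zero.mp h1
            have := hρ.1.2.2
            rw [h2] at this
            simp at this
          · intro h1
            have := hρ.1.2.1
            rw [h1] at this
            simp at this)
  have hsum : ∑ ρ ∈ insert 0 Z, gz h v ρ / deriv Fz ρ =
      -2 + ∑ ρ ∈ Z, EE h v ρ / (ρ * deriv riemannZeta ρ) := by
    rw [Finset.sum_insert h0Z]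
    congr 1
    · rw [deriv_Fz_zero]
      unfold gz EE
      simp
    · apply Finset.sum_congr rfl
      intro ρ hρ
      rw [hZ] at hρ
      rw [deriv_Fz ρ hρ.1]
      have h1 : ρ - 1 ≠ 0 := by
        intro h1
        have h2 : ρ = 1 := sub_eq_zero.mp h1
        have := hρ.1.2.2
        rw [h2] at this
        simp at this
      unfold gz
      rw [mul_div_mul_left _ _ h1]
  have hc : ∀ (t : ℝ), t ≠ 0 → (∫ x in (-1 / 2 : ℝ)..(3 / 2), gz h v (⟨x, t⟩ : ℂ) / Fz ⟨x, t⟩) =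
      ∫ x in (-1 / 2 : ℝ)..(3 / 2), GG h v (⟨x, t⟩ : ℂ) := by
    intro t ht
    apply intervalIntegral.integral_congr
    intro x _
    apply quot
    intro h1
    have h2 := congrArg Complex.im h1
    exact ht h2
  have hr : ∀ (σ : ℝ), σ ≠ 1 → (∫ y in (-U)..U, gz h v (⟨σ, y⟩ : ℂ) / Fz ⟨σ, y⟩) =
      ∫ y in (-U)..U, GG h v (⟨σ, y⟩ : ℂ) := by
    intro σ hσ
    apply intervalIntegral.integral_congr
    intro y _
    apply quot
    intro h1
    have h2 := congrArg Complex.re h1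
    exact hσ h2
  rw [hc (-U) (by linarith), hc U (by linarith), hr (3 / 2) (by norm_num), hr (-1 / 2) (by norm_num), hsum] at key
  have hpi : (Real.pi : ℂ) ≠ 0 := by exact_mod_cast Real.pi_ne_zero
  have hI := Complex.I_ne_zero
  generalize (∫ x in (-1 / 2 : ℝ)..(3 / 2), GG h v (⟨x, -U⟩ : ℂ)) = A1 at key ⊢
  generalize (∫ x in (-1 / 2 : ℝ)..(3 / 2), GG h v (⟨x, U⟩ : ℂ)) = A2 at key ⊢
  generalize (∫ y in (-U)..U, GG h v (⟨3 / 2, y⟩ : ℂ)) = A3 at key ⊢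
  generalize (∫ y in (-U)..U, GG h v (⟨-1 / 2, y⟩ : ℂ)) = A4 at key ⊢
  generalize (∑ ρ ∈ Z, EE h v ρ / (ρ * deriv riemannZeta ρ)) = A5 at key ⊢
  push_cast
  field_simp
  linear_combination (-1 : ℂ) * key

theorem ef (hINV : T_INV) (hRES : T_RES) (hHOR : T_HOR) (hLB : T_LB) : T_EF := by
  intro hsimple
  obtain ⟨C, hC, hgood⟩ := hHOR
  have hk : ∀ k : ℕ, ∃ U ∈ Icc ((k : ℝ) + 3) ((k : ℝ) + 3 + 1),
      ∀ σ ∈ Icc (-1 / 2 : ℝ) (3 / 2), ∀ t : ℝ, |t| = U →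
        riemannZeta (⟨σ, t⟩ : ℂ) ≠ 0 ∧
          ‖(riemannZeta (⟨σ, t⟩ : ℂ))⁻¹‖ ≤ Real.exp (C * Real.log ((k : ℝ) + 3) ^ 2) := by
    intro k
    apply hgood
    have : (0 : ℝ) ≤ k := Nat.cast_nonneg k
    linarith
  choose U hUI hUz using hk
  have hU1 : ∀ k, 1 ≤ U k := by
    intro k
    have h1 : (0 : ℝ) ≤ k := Nat.cast_nonneg k
    have h2 := (hUI k).1
    linarith
  have hU0 : ∀ k, 0 ≤ U k := fun k => le_trans zero_le_one (hU1 k)
  have hZmem : ∀ k ρ, ρ ∈ (fin_NT (U k)).toFinset ↔ ρ ∈ NT ∧ |ρ.im| ≤ U k := by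
    intro k ρ
    rw [Set.Finite.mem_toFinset]
    exact Iff.rfl
  refine ⟨fun k => (fin_NT (U k)).toFinset, fun k ρ hρ => ((hZmem k ρ).mp hρ).1, ?_⟩
  intro h v hh hh1
  have hrect := fun k => rect hRES hsimple (U k) (hU1 k) (fun σ hσ t ht => (hUz k σ hσ t ht).1)
    (fin_NT (U k)).toFinset (hZmem k) h v
  have hUtop : Tendsto U atTop atTop := by
    apply tendsto_atTop_mono (fun k => (hUI k).1)
    exact tendsto_atTop_add_const_right atTop 3 tendsto_natCast_atTop_atTop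
  have hUbot : Tendsto (fun k => -U k) atTop atBot := tendsto_neg_atTop_atBot.comp hUtop
  -- horizontal integrals
  have hexp : Tendsto (fun k : ℕ => Real.exp (h ^ 2 / 2 * (9 / 4 - U k ^ 2) + 3 / 2 * |v| +
      C * Real.log ((k : ℝ) + 3) ^ 2) * 2) atTop (𝓝 0) := by
    have h1 : Tendsto (fun k : ℕ => h ^ 2 / 2 * (9 / 4 - U k ^ 2) + 3 / 2 * |v| +
      C * Real.log ((k : ℝ) + 3) ^ 2) atTop atBot := by
      have h2 := (lim_bot (h ^ 2 / 2 * (9 / 4) + 3 / 2 * |v|) C (h ^ 2 / 2) hC (by positivity)).comp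
        (tendsto_atTop_add_const_right atTop (3 : ℝ) tendsto_natCast_atTop_atTop)
      refine tendsto_atBot_mono (fun k => ?_) h2
      have h3 : (0 : ℝ) ≤ k := Nat.cast_nonneg k
      have h4 : ((k : ℝ) + 3) ^ 2 ≤ U k ^ 2 := by
        have := (hUI k).1
        exact pow_le_pow_left₀ (by linarith) this 2
      have h5 := mul_le_mul_of_nonneg_left h4 (by positivity : (0 : ℝ) ≤ h ^ 2 / 2)
      show h ^ 2 / 2 * (9 / 4 - U k ^ 2) + 3 / 2 * |v| + C * Real.log ((k : ℝ) + 3) ^ 2 ≤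
        h ^ 2 / 2 * (9 / 4) + 3 / 2 * |v| + C * Real.log ((k : ℝ) + 3) ^ 2 - h ^ 2 / 2 * ((k : ℝ) + 3) ^ 2
      linarith
    have h2 := (Real.tendsto_exp_atBot.comp h1).mul_const 2
    rw [zero_mul] at h2
    exact h2
  have hB1 : Tendsto (fun k => ∫ x in (-1 / 2 : ℝ)..(3 / 2), GG h v (⟨x, -U k⟩ : ℂ)) atTop (𝓝 0) := by
    apply squeeze_zero_norm _ hexp
    intro k
    have ht : |-U k| = U k := by rw [abs_neg, abs_of_nonneg (hU0 k)]
    exact hor_bound h v (U k) _ (-U k) ht (hU1 k) (fun σ hσ => (hUz k σ hσ _ ht).2)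
  have hB2 : Tendsto (fun k => ∫ x in (-1 / 2 : ℝ)..(3 / 2), GG h v (⟨x, U k⟩ : ℂ)) atTop (𝓝 0) := by
    apply squeeze_zero_norm _ hexp
    intro k
    have ht : |U k| = U k := abs_of_nonneg (hU0 k)
    exact hor_bound h v (U k) _ (U k) ht (hU1 k) (fun σ hσ => (hUz k σ hσ _ ht).2)
  have hR : Tendsto (fun k => ∫ y in (-U k)..(U k), GG h v (⟨3 / 2, y⟩ : ℂ)) atTop
      (𝓝 (∫ t : ℝ, GG h v (⟨3 / 2, t⟩ : ℂ))) :=
    intervalIntegral_tendsto_integral (hINV h v hh).1 hUbot hUtop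
  obtain ⟨B, _, hLB⟩ := hLB
  have hL : Tendsto (fun k => ∫ y in (-U k)..(U k), GG h v (⟨-1 / 2, y⟩ : ℂ)) atTop
      (𝓝 (∫ t : ℝ, GG h v (⟨-1 / 2, t⟩ : ℂ))) :=
    intervalIntegral_tendsto_integral (hLB h v hh hh1).1 hUbot hUtop
  have hlim := ((hB1.sub hB2).const_mul ((2 * Real.pi * Complex.I)⁻¹)).const_add 2 |>.add
    ((hR.sub hL).const_mul (((2 * Real.pi : ℝ) : ℂ)⁻¹))
  have hfin : (2 : ℂ) + (2 * Real.pi * Complex.I)⁻¹ * (0 - 0) + ((2 * Real.pi : ℝ) : ℂ)⁻¹ *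
      ((∫ t : ℝ, GG h v (⟨3 / 2, t⟩ : ℂ)) - ∫ t : ℝ, GG h v (⟨-1 / 2, t⟩ : ℂ)) =
      ((Sm h v : ℝ) : ℂ) + 2 -
        ((2 * Real.pi : ℝ) : ℂ)⁻¹ * ∫ t : ℝ, GG h v (⟨-1 / 2, t⟩ : ℂ) := by
    rw [(hINV h v hh).2]
    ring
  rw [hfin] at hlim
  refine hlim.congr (fun k => ?_)
  exact (hrect k).symm

end Pool.Agent.W280.WM
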